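import Pool.Agent.H45.SHA.Stmts

/-!
# SHA, module FA: triples with a known set `K` of the second type
-/

set_option autoImplicit false

namespace Pool.SHA

open Finset Pool.Agent.H98.ABCR

/-- covering lemma -/
private theorem fa_cover {α β : Type*} (F : Finset α) (S : Finset β)
    (P : β → α → Prop) (N : ℝ) (h : ∀ v ∈ F, ∃ c ∈ S, P c v)
    (hN : ∀ c ∈ S, ∀ G : Finset α, G ⊆ F → (∀ v ∈ G, P c v) → (G.card : ℝ) ≤ N) :
    (F.card : ℝ) ≤ S.card * N := by
  classical
  have h1 : F ⊆ S.biUnion fun c => F.filter (P c) := by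
    intro v hv
    obtain ⟨c, hc, hp⟩ := h v hv
    exact mem_biUnion.2 ⟨c, hc, mem_filter.2 ⟨hv, hp⟩⟩
  have h2 : (F.card : ℝ) ≤ ∑ c ∈ S, ((F.filter (P c)).card : ℝ) := by
    exact_mod_cast (card_le_card h1).trans card_biUnion_le
  refine h2.trans ?_
  rw [← nsmul_eq_mul]
  exact sum_le_card_nsmul _ _ _ fun c hc =>
    hN c hc _ (filter_subset _ _) fun v hv => (mem_filter.1 hv).2

private theorem fa_kl_full {K : Finset ℕ} {n : ℕ} (h : n.primeFactors ⊆ K) :
    kl K n = Real.log n := by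
  unfold kl
  rw [Real.log_nat_eq_sum_factorization, Finsupp.sum, Nat.support_factorization]
  refine (Finset.sum_subset h fun q _ hq => ?_).symm
  have : n.factorization q = 0 := by
    rw [← Finsupp.notMem_support_iff, Nat.support_factorization]
    exact hq
  rw [this]
  simp

private theorem fa_kl_mono {K K' : Finset ℕ} (hK : K ⊆ K') (n : ℕ) : kl K n ≤ kl K' n := by
  unfold kl
  refine Finset.sum_le_sum_of_subset_of_nonneg hK fun q _ _ => ?_
  exact mul_nonneg (Nat.cast_nonneg _) (Real.log_natCast_nonneg q)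

private theorem fa_mass {v : ℕ × ℕ} (hv : IsTri v) (K : Finset ℕ) (i : Fin 3) (δ : ℝ)
    (hK : ∀ s, s ≠ i → (coord v s).primeFactors ⊆ K) (hi : δ * hh v ≤ kl K (coord v i)) :
    (2 + δ) * hh v - Real.log 2 ≤ mass K v := by
  obtain ⟨ha, hb, -⟩ := hv
  have ha' : (0 : ℝ) < (v.1 : ℝ) := by exact_mod_cast ha
  have hb' : (0 : ℝ) < (v.2 : ℝ) := by exact_mod_cast hb
  have hmin : (0 : ℝ) < ((min v.1 v.2 : ℕ) : ℝ) := by
    exact_mod_cast lt_min ha hb
  have hmin1 : Real.log ((min v.1 v.2 : ℕ) : ℝ) ≤ Real.log v.1 :=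
    Real.log_le_log hmin (by exact_mod_cast min_le_left _ _)
  have hmin2 : Real.log ((min v.1 v.2 : ℕ) : ℝ) ≤ Real.log v.2 :=
    Real.log_le_log hmin (by exact_mod_cast min_le_right _ _)
  have hl2 : 0 < Real.log 2 := Real.log_pos (by norm_num)
  have hmm : hh v - Real.log 2 + Real.log ((min v.1 v.2 : ℕ) : ℝ) ≤
      Real.log v.1 + Real.log v.2 := by
    have hc : (0 : ℝ) < ((v.1 + v.2 : ℕ) : ℝ) := by exact_mod_cast (by omega : 0 < v.1 + v.2)
    unfold hh
    rw [← Real.log_div hc.ne' (by norm_num), ← Real.log_mul (by positivity) hmin.ne',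
      ← Real.log_mul ha'.ne' hb'.ne']
    refine Real.log_le_log (by positivity) ?_
    rcases le_total v.1 v.2 with h | h
    · rw [min_eq_left h]
      have h' : (v.1 : ℝ) ≤ v.2 := by exact_mod_cast h
      push_cast
      nlinarith
    · rw [min_eq_right h]
      have h' : (v.2 : ℝ) ≤ v.1 := by exact_mod_cast h
      push_cast
      nlinarith
  unfold mass
  rw [Fin.sum_univ_three]
  have e0 : coord v 0 = v.1 := rfl
  have e1 : coord v 1 = v.2 := rfl
  have e2 : coord v 2 = v.1 + v.2 := rfl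
  have f0 : (0 : Fin 3) ≠ i → kl K (coord v 0) = Real.log v.1 := fun h => by
    rw [fa_kl_full (hK 0 h), e0]
  have f1 : (1 : Fin 3) ≠ i → kl K (coord v 1) = Real.log v.2 := fun h => by
    rw [fa_kl_full (hK 1 h), e1]
  have f2 : (2 : Fin 3) ≠ i → kl K (coord v 2) = hh v := fun h => by
    rw [fa_kl_full (hK 2 h), e2]
    rfl
  fin_cases i
  · have hi' : δ * hh v ≤ kl K (coord v 0) := hi
    rw [f1 (by decide), f2 (by decide)]
    linarith
  · have hi' : δ * hh v ≤ kl K (coord v 1) := hi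
    rw [f0 (by decide), f2 (by decide)]
    linarith
  · have hi' : δ * hh v ≤ kl K (coord v 2) := hi
    rw [f0 (by decide), f1 (by decide)]
    linarith

private theorem fa_card_fact (S : Finset ℕ) (hS : ∀ q ∈ S, 1 ≤ q) :
    S.card.factorial ≤ ∏ q ∈ S, q := by
  induction S using Finset.induction_on_max with
  | empty => simp
  | insert a s hs ih =>
    have ha : a ∉ s := fun h => lt_irrefl _ (hs a h)
    rw [Finset.card_insert_of_notMem ha, Finset.prod_insert ha, Nat.factorial_succ]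
    refine Nat.mul_le_mul ?_ (ih fun q hq => hS q (mem_insert_of_mem hq))
    have h1 : s ⊆ Icc 1 (a - 1) := by
      intro x hx
      have h2 := hs x hx
      have h3 := hS x (mem_insert_of_mem hx)
      rw [mem_Icc]
      omega
    have h4 := card_le_card h1
    rw [Nat.card_Icc] at h4
    have h5 := hS a (mem_insert_self _ _)
    omega

private theorem fa_log_half {x : ℝ} (hx : 0 < x) : Real.log x ≤ x / 2 := by
  have h1 : 0 < Real.sqrt x := Real.sqrt_pos.2 hx
  have h2 := Real.log_le_sub_one_of_pos h1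
  have h3 : Real.log x = 2 * Real.log (Real.sqrt x) := by
    rw [Real.log_sqrt hx.le]
    ring
  have h4 : Real.sqrt x * Real.sqrt x = x := Real.mul_self_sqrt hx.le
  nlinarith [sq_nonneg (Real.sqrt x - 2)]

private theorem fa_fact_log {w : ℕ} {X : ℝ} (h : (w.factorial : ℝ) ≤ X) :
    (w : ℝ) * (Real.log w - 1) ≤ Real.log X := by
  rcases Nat.eq_zero_or_pos w with rfl | hw
  · simp only [Nat.factorial_zero, Nat.cast_one] at h
    simpa using Real.log_nonneg h
  · have hw' : (0 : ℝ) < w := by exact_mod_cast hw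
    have h1 := Real.pow_div_factorial_le_exp (w : ℝ) hw'.le w
    have hf : (0 : ℝ) < w.factorial := by exact_mod_cast w.factorial_pos
    have h2 : ((w : ℝ) ^ w) ≤ Real.exp w * X := by
      rw [div_le_iff₀ hf] at h1
      exact h1.trans (mul_le_mul_of_nonneg_left h (Real.exp_pos _).le)
    have hX : 0 < X := lt_of_lt_of_le hf h
    have h3 := Real.log_le_log (by positivity) h2
    rw [Real.log_pow, Real.log_mul (Real.exp_pos _).ne' hX.ne', Real.log_exp] at h3
    linarith

private theorem fa_w_le {w : ℕ} {X : ℝ} (h : (w.factorial : ℝ) ≤ X) {L : ℝ}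
    (hL : L = Real.log (Real.log X)) (hL4 : 4 ≤ L) (hl : 0 < Real.log X) :
    (w : ℝ) ≤ 4 * Real.log X / L := by
  by_contra hcon
  push Not at hcon
  set l := Real.log X with hl_def
  have h1 := fa_fact_log h
  rw [← hl_def] at h1
  have hL0 : 0 < L := by linarith
  have hw0 : (0 : ℝ) < w := lt_trans (by positivity) hcon
  have h2 : L / 2 ≤ Real.log w := by
    have h3 : Real.log (4 * l / L) ≤ Real.log w := Real.log_le_log (by positivity) hcon.le
    rw [Real.log_div (by positivity) hL0.ne', Real.log_mul (by norm_num) hl.ne', ← hL] at h3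
    have h4 := fa_log_half hL0
    have h5 : 0 ≤ Real.log 4 := Real.log_nonneg (by norm_num)
    linarith
  have h6 : L / 4 ≤ Real.log w - 1 := by linarith
  have h7 : (w : ℝ) * (L / 4) ≤ l := (mul_le_mul_of_nonneg_left h6 hw0.le).trans h1
  rw [div_lt_iff₀ hL0] at hcon
  nlinarith

private theorem fa_ana {c δ A : ℝ} (hc : 0 < c) (hδ : 0 < δ) (hA : 0 < A) {l L h0 w : ℝ}
    (hL : L = Real.log l) (hl : 0 < l) (hL1 : 1 ≤ L) (hLT : A * (16 + 104 / c) / δ ≤ L)
    (hw0 : 0 < w) (hw : w ≤ 4 * l / L) (hh0 : c * l ^ 2 / 2 ≤ h0) :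
    A * (l + w * Real.log (h0 * l)) ≤ δ * h0 / w := by
  have hL0 : 0 < L := by linarith
  have hh0' : 0 < h0 := lt_of_lt_of_le (by positivity) hh0
  rw [le_div_iff₀ hw0]
  have h1 : Real.log (h0 * l) ≤ h0 / l ^ 2 + 3 * L := by
    have e : h0 * l = (h0 / l ^ 2) * l ^ 3 := by
      field_simp
    rw [e, Real.log_mul (by positivity) (by positivity), Real.log_pow, ← hL]
    have h2 := Real.log_le_sub_one_of_pos (show 0 < h0 / l ^ 2 by positivity)
    push_cast
    linarith
  have h2 : w * w * Real.log (h0 * l) ≤ (4 * l / L) * (4 * l / L) * (h0 / l ^ 2 + 3 * L) := by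
    have hnn : 0 ≤ h0 / l ^ 2 + 3 * L := by positivity
    calc w * w * Real.log (h0 * l) ≤ w * w * (h0 / l ^ 2 + 3 * L) :=
          mul_le_mul_of_nonneg_left h1 (by positivity)
      _ ≤ (4 * l / L) * (4 * l / L) * (h0 / l ^ 2 + 3 * L) :=
          mul_le_mul_of_nonneg_right (mul_le_mul hw hw hw0.le (by positivity)) hnn
  have h3 : (4 * l / L) * (4 * l / L) * (h0 / l ^ 2 + 3 * L) = 16 * h0 / L ^ 2 + 48 * l ^ 2 / L := by
    field_simp
    ring
  have h4 : w * l ≤ 4 * l ^ 2 / L := by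
    calc w * l ≤ 4 * l / L * l := mul_le_mul_of_nonneg_right hw hl.le
      _ = 4 * l ^ 2 / L := by ring
  have h5 : l ^ 2 ≤ 2 * h0 / c := by
    rw [le_div_iff₀ hc]
    linarith
  have h6 : 16 * h0 / L ^ 2 ≤ 16 * h0 / L := by
    apply div_le_div_of_nonneg_left (by positivity) hL0
    nlinarith
  have h7 : 52 * l ^ 2 / L ≤ (104 / c) * h0 / L := by
    apply div_le_div_of_nonneg_right _ hL0.le
    have : 52 * l ^ 2 ≤ 52 * (2 * h0 / c) := by linarith
    refine this.trans (le_of_eq ?_)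
    ring
  have h8 : w * l + w * w * Real.log (h0 * l) ≤ (16 + 104 / c) * h0 / L := by
    have e1 : 52 * l ^ 2 / L = 4 * l ^ 2 / L + 48 * l ^ 2 / L := by ring
    have e2 : (16 + 104 / c) * h0 / L = 16 * h0 / L + (104 / c) * h0 / L := by ring
    rw [e2]
    linarith
  have h9 : A * (16 + 104 / c) ≤ δ * L := by
    rw [div_le_iff₀ hδ] at hLT
    linarith
  calc A * (l + w * Real.log (h0 * l)) * w
      = A * (w * l + w * w * Real.log (h0 * l)) := by ring
    _ ≤ A * ((16 + 104 / c) * h0 / L) := mul_le_mul_of_nonneg_left h8 hA.le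
    _ = (A * (16 + 104 / c)) * (h0 / L) := by ring
    _ ≤ (δ * L) * (h0 / L) := mul_le_mul_of_nonneg_right h9 (by positivity)
    _ = δ * h0 := by field_simp

/-- the free primes of a triple -/
private def FaR {k : ℕ} (K : Finset ℕ) (i : Fin 3) (e : Fin 3 → Fin k → ℕ) (q : Fin k → ℕ)
    (v : ℕ × ℕ) : Prop :=
  Function.Injective q ∧ (∀ j, q j ∈ (nn v).primeFactors ∧ q j ∉ K) ∧ ELab i e ∧
  (∀ s, s ≠ i → ∃ u : ℕ, u.primeFactors ⊆ K ∧ coord v s = u * ∏ j, q j ^ e s j) ∧
  ∀ s, s ≠ i → (coord v s).primeFactors ⊆ K ∪ univ.image q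

private theorem fa_nn_coord (v : ℕ × ℕ) (s : Fin 3) : coord v s ∣ nn v := by
  unfold nn
  fin_cases s
  · exact Dvd.intro _ (mul_assoc _ _ _).symm
  · exact Dvd.dvd.mul_right (Dvd.intro_left _ rfl) _
  · exact Dvd.intro_left _ rfl

private theorem fa_coord_pos {v : ℕ × ℕ} (hv : IsTri v) (s : Fin 3) : 0 < coord v s := by
  obtain ⟨ha, hb, -⟩ := hv
  fin_cases s
  · exact ha
  · exact hb
  · exact Nat.add_pos_left ha _

private theorem fa_nn_pos {v : ℕ × ℕ} (hv : IsTri v) : 0 < nn v := by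
  obtain ⟨ha, hb, -⟩ := hv
  unfold nn
  positivity

private theorem fa_coprime {v : ℕ × ℕ} (hv : IsTri v) {s t : Fin 3} (h : s ≠ t) :
    (coord v s).Coprime (coord v t) := by
  obtain ⟨-, -, hc⟩ := hv
  have h01 : v.1.Coprime v.2 := hc
  have h02 : v.1.Coprime (v.1 + v.2) := by simpa using hc
  have h12 : v.2.Coprime (v.1 + v.2) := by simpa using hc.symm
  fin_cases s <;> fin_cases t
  · exact absurd rfl h
  · exact h01
  · exact h02
  · exact h01.symm
  · exact absurd rfl h
  · exact h12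
  · exact h02.symm
  · exact h12.symm
  · exact absurd rfl h

private theorem fa_free {v : ℕ × ℕ} (hv : IsTri v) (K : Finset ℕ) (i : Fin 3) :
    ∃ (k : ℕ) (e : Fin 3 → Fin k → ℕ) (q : Fin k → ℕ),
      (∀ s j, e s j ≤ (coord v s).factorization (q j)) ∧ FaR K i e q v := by
  classical
  set S : Finset ℕ := ((nn v).primeFactors \ K).filter (fun p => ∃ s, s ≠ i ∧ p ∣ coord v s)
    with hS
  have hS1 : ∀ p ∈ S, p ∈ (nn v).primeFactors ∧ p ∉ K ∧ ∃ s, s ≠ i ∧ p ∣ coord v s := by
    intro p hp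
    rw [hS, mem_filter, mem_sdiff] at hp
    exact ⟨hp.1.1, hp.1.2, hp.2⟩
  have hS2 : ∀ s, s ≠ i → ∀ p ∈ (coord v s).primeFactors, p ∉ K → p ∈ S := by
    intro s hs p hp hpK
    rw [hS, mem_filter, mem_sdiff]
    have hp' := Nat.mem_primeFactors.1 hp
    refine ⟨⟨Nat.mem_primeFactors.2 ⟨hp'.1, hp'.2.1.trans (fa_nn_coord v s),
      (fa_nn_pos hv).ne'⟩, hpK⟩, s, hs, hp'.2.1⟩
  set q : Fin S.card → ℕ := fun j => (S.equivFin.symm j : ℕ) with hq
  have hqS : ∀ j, q j ∈ S := fun j => (S.equivFin.symm j).2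
  have hqi : Function.Injective q := by
    intro a b hab
    exact S.equivFin.symm.injective (Subtype.ext hab)
  have hqim : univ.image q = S := by
    ext p
    rw [mem_image]
    constructor
    · rintro ⟨j, -, rfl⟩
      exact hqS j
    · intro hp
      exact ⟨S.equivFin ⟨p, hp⟩, mem_univ _, by simp [hq]⟩
  have hprime : ∀ j, (q j).Prime := fun j => (Nat.mem_primeFactors.1 (hS1 _ (hqS j)).1).1
  have hsub : ∀ s, s ≠ i → (coord v s).primeFactors ⊆ K ∪ univ.image q := by
    intro s hs p hp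
    rw [hqim, mem_union]
    by_cases hpK : p ∈ K
    · exact Or.inl hpK
    · exact Or.inr (hS2 s hs p hp hpK)
  refine ⟨S.card, fun s j => (coord v s).factorization (q j), q, fun s j => le_rfl, hqi,
    fun j => ⟨(hS1 _ (hqS j)).1, (hS1 _ (hqS j)).2.1⟩, ?_, ?_, hsub⟩
  · intro j
    obtain ⟨s, hs, hdvd⟩ := (hS1 _ (hqS j)).2.2
    refine ⟨s, hs, ?_, ?_⟩
    · exact (hprime j).factorization_pos_of_dvd (fa_coord_pos hv s).ne' hdvd
    · intro s' _ hs's
      refine Nat.factorization_eq_zero_of_not_dvd fun hd => ?_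
      have := Nat.Coprime.eq_one_of_dvd ((fa_coprime hv hs's).coprime_dvd_left hd) hdvd
      exact (hprime j).one_lt.ne' this
  · intro s hs
    have hne := (fa_coord_pos hv s).ne'
    refine ⟨∏ p ∈ (coord v s).primeFactors.filter (· ∈ K), p ^ (coord v s).factorization p,
      ?_, ?_⟩
    · intro p hp
      have hp' := Nat.mem_primeFactors.1 hp
      obtain ⟨r, hr, hpr⟩ := (hp'.1.prime.dvd_finsetProd_iff _).1 hp'.2.1
      have hr' := mem_filter.1 hr
      have h1 := hp'.1.dvd_of_dvd_pow hpr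
      have h2 := (Nat.prime_dvd_prime_iff_eq hp'.1 (Nat.mem_primeFactors.1 hr'.1).1).1 h1
      rw [h2]
      exact hr'.2
    · have e1 : coord v s = ∏ p ∈ (coord v s).primeFactors, p ^ (coord v s).factorization p :=
        (Nat.prod_factorization_pow_eq_self hne).symm
      have e2 : ∏ j, q j ^ (coord v s).factorization (q j) =
          ∏ p ∈ S, p ^ (coord v s).factorization p := by
        have e4 := Finset.prod_image (s := univ) (g := q)
          (f := fun p => p ^ (coord v s).factorization p) (fun a _ b _ h => hqi h)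
        rw [hqim] at e4
        exact e4.symm
      have e3 : ∏ p ∈ S, p ^ (coord v s).factorization p =
          ∏ p ∈ (coord v s).primeFactors.filter (¬ · ∈ K), p ^ (coord v s).factorization p := by
        refine (Finset.prod_subset ?_ ?_).symm
        · intro p hp
          have hp' := mem_filter.1 hp
          exact hS2 s hs p hp'.1 hp'.2
        · intro p hpS hp
          have hp1 : p ∉ (coord v s).primeFactors := fun h =>
            hp (mem_filter.2 ⟨h, (hS1 p hpS).2.1⟩)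
          have : (coord v s).factorization p = 0 := by
            rw [← Finsupp.notMem_support_iff, Nat.support_factorization]
            exact hp1
          rw [this, pow_zero]
      rw [e2, e3]
      nth_rewrite 1 [e1]
      exact (Finset.prod_filter_mul_prod_filter_not _ (· ∈ K) _).symm

private theorem fa_exp_le {n : ℕ} {x : ℕ} {H : ℝ} (hx : 0 < x) (hlog : Real.log x ≤ H) {q : ℕ}
    (hq : q.Prime) (hn : n ≤ x.factorization q) : n ≤ ⌊2 * H⌋₊ := by
  have h1 : (2 : ℝ) ^ n ≤ x := by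
    have h2 : q ^ x.factorization q ≤ x := Nat.ordProj_le q hx.ne'
    have h3 : 2 ^ n ≤ q ^ x.factorization q :=
      (Nat.pow_le_pow_right (by norm_num) hn).trans (Nat.pow_le_pow_left hq.two_le _)
    exact_mod_cast h3.trans h2
  have h4 := Real.log_le_log (by positivity) h1
  rw [Real.log_pow] at h4
  have h5 : (1 / 2 : ℝ) ≤ Real.log 2 := by
    have := Real.log_two_gt_d9
    linarith
  refine Nat.le_floor ?_
  nlinarith [Nat.cast_nonneg (α := ℝ) n]

theorem fa_thm (hTL : S_TL) (hGP : S_GP) : S_FA := by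
  classical
  intro ε δ η c hε hδ hδ1 hη hc
  have hTL' := fun k : ℕ => hTL k (ε / 8) (by positivity)
  choose A X1 hA hX1 hT using hTL'
  obtain ⟨C, hC, hG⟩ := hGP (δ / 2) (by positivity) (by linarith)
  set N : ℕ := ⌊1 / η⌋₊ with hN
  set AA : ℝ := ∑ k ∈ range (N + 1), A k with hAA
  set XX : ℝ := ∑ k ∈ range (N + 1), X1 k with hXX
  set c1 : ℝ := 6 * ((N : ℝ) + 1) * 3 ^ (3 * N) with hc1
  have hAk : ∀ k ≤ N, A k ≤ AA := fun k hk =>
    Finset.single_le_sum (f := A) (fun j _ => zero_le_one.trans (hA j))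
      (mem_range.2 (Nat.lt_succ_of_le hk))
  have hXk : ∀ k ≤ N, X1 k ≤ XX := fun k hk =>
    Finset.single_le_sum (f := X1) (fun j _ => zero_le_one.trans (hX1 j))
      (mem_range.2 (Nat.lt_succ_of_le hk))
  have hAA0 : 0 ≤ AA := Finset.sum_nonneg fun j _ => zero_le_one.trans (hA j)
  have hXX0 : 0 ≤ XX := Finset.sum_nonneg fun j _ => zero_le_one.trans (hX1 j)
  have hc10 : 0 ≤ c1 := by positivity
  have hlC : 0 ≤ Real.log C := Real.log_nonneg hC
  set T : ℝ := 4 + AA * (16 + 104 / c) / δ + 64 * Real.log C / ε + 128 / ε ^ 2 + c1 + 1 / c +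
    2 / (c * δ) with hTdef
  have t1 : 0 ≤ AA * (16 + 104 / c) / δ := by positivity
  have t2 : 0 ≤ 64 * Real.log C / ε := by positivity
  have t3 : 0 ≤ 128 / ε ^ 2 := by positivity
  have t4 : 0 ≤ 1 / c := by positivity
  have t5 : 0 ≤ 2 / (c * δ) := by positivity
  have hT4 : 4 ≤ T := by linarith
  refine ⟨3 * (N : ℝ) + 2, Real.exp (Real.exp T) + XX, by linarith [Nat.cast_nonneg (α := ℝ) N],
    by linarith [Real.one_le_exp (Real.exp_pos T).le], ?_⟩
  intro X H K F hX hH hF
  rcases F.eq_empty_or_nonempty with rfl | ⟨v0, hv0⟩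
  · simp only [card_empty, Nat.cast_zero]
    have : 0 ≤ X := by linarith [Real.exp_pos (Real.exp T)]
    positivity
  have hXe : Real.exp (Real.exp T) ≤ X := by linarith
  have hX0 : 0 < X := lt_of_lt_of_le (Real.exp_pos _) hXe
  set l := Real.log X with hl
  have hlT : Real.exp T ≤ l := by
    rw [hl, Real.le_log_iff_exp_le hX0]
    exact hXe
  have hl0 : 0 < l := lt_of_lt_of_le (Real.exp_pos _) hlT
  have hTl : T ≤ l := by linarith [Real.add_one_le_exp T]
  have hX1' : 1 ≤ X := by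
    by_contra hcon
    have := Real.log_nonpos hX0.le (not_le.1 hcon).le
    linarith
  set L := Real.log l with hL
  have hLT : T ≤ L := by
    rw [hL, Real.le_log_iff_exp_le hl0]
    exact hlT
  have hL4 : 4 ≤ L := hT4.trans hLT
  have hL0 : 0 < L := by linarith
  have hXrpow : ∀ a : ℝ, X ^ a = Real.exp (l * a) := fun a => by
    rw [Real.rpow_def_of_pos hX0]
  -- bounds for numbers of primes
  have hwb : ∀ w : ℕ, (w.factorial : ℝ) ≤ X → (w : ℝ) ≤ 4 * l / L := fun w hw =>
    fa_w_le hw (by rw [hL, hl]) hL4 hl0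
  have hwl : ∀ w : ℕ, (w.factorial : ℝ) ≤ X → (w : ℝ) ≤ l := fun w hw => by
    refine (hwb w hw).trans ?_
    rw [div_le_iff₀ hL0]
    nlinarith
  have hwC : ∀ w : ℕ, (w.factorial : ℝ) ≤ X → C ^ (w + 1) ≤ X ^ (ε / 8) := by
    intro w hw
    have hC0 : 0 < C := by linarith
    rw [hXrpow, ← Real.rpow_natCast, Real.rpow_def_of_pos hC0]
    refine Real.exp_le_exp.2 ?_
    push_cast
    have h1 : (w : ℝ) * T ≤ 4 * l := by
      have h2 := hwb w hw
      rw [le_div_iff₀ hL0] at h2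
      nlinarith [Nat.cast_nonneg (α := ℝ) w]
    have h3 : 64 * Real.log C ≤ T * ε := by
      rw [← div_le_iff₀ hε]
      linarith
    have h4 : (w : ℝ) * (64 * Real.log C) ≤ 4 * l * ε := by
      calc (w : ℝ) * (64 * Real.log C) ≤ w * (T * ε) :=
            mul_le_mul_of_nonneg_left h3 (Nat.cast_nonneg _)
        _ = (w * T) * ε := by ring
        _ ≤ 4 * l * ε := mul_le_mul_of_nonneg_right h1 hε.le
    have h5 : 64 * Real.log C ≤ l * ε := h3.trans (mul_le_mul_of_nonneg_right hTl hε.le)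
    nlinarith
  have hlX : l ≤ X ^ (ε / 8) := by
    rw [hXrpow]
    have h1 := Real.quadratic_le_exp_of_nonneg (show 0 ≤ l * (ε / 8) by positivity)
    have h2 : 128 / ε ^ 2 ≤ l := by linarith
    rw [div_le_iff₀ (by positivity)] at h2
    have h3 : l ≤ (l * (ε / 8)) ^ 2 / 2 := by nlinarith
    have h4 : 0 ≤ l * (ε / 8) := by positivity
    linarith
  have hfac : ∀ v ∈ F, ∀ S ⊆ (nn v).primeFactors, ((∏ q ∈ S, q : ℕ) : ℝ) ≤ X ∧
      (S.card.factorial : ℝ) ≤ X := by
    intro v hv S hS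
    have h1 : ((∏ q ∈ S, q : ℕ) : ℝ) ≤ X := by
      have h2 : ∏ q ∈ S, q ≤ RR v := by
        unfold RR rad
        exact Finset.prod_le_prod_of_subset_of_one_le' hS fun q hq _ =>
          (Nat.mem_primeFactors.1 hq).1.one_lt.le
      exact le_trans (by exact_mod_cast h2) (hF v hv).2.1
    refine ⟨h1, le_trans ?_ h1⟩
    exact_mod_cast fa_card_fact S fun q hq => (Nat.mem_primeFactors.1 (hS hq)).1.one_lt.le
  have hKp : ∀ q ∈ K, q.Prime := fun q hq =>
    (Nat.mem_primeFactors.1 ((hF v0 hv0).2.2.2.2.2.1 hq)).1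
  have hKX : ∀ v ∈ F, ∀ q ∈ (nn v).primeFactors, (q : ℝ) ≤ X := by
    intro v hv q hq
    have := (hfac v hv {q} (singleton_subset_iff.2 hq)).1
    simpa using this
  have hhc : ∀ v ∈ F, 1 ≤ hh v ∧ Real.log 2 ≤ δ / 2 * hh v := by
    intro v hv
    have h1 := (hF v hv).2.2.2.2.1
    have h2 : c * l ≤ c * l ^ 2 := by nlinarith [mul_pos hc hl0]
    have h3 : 1 / c ≤ l := by linarith
    have h4 : 2 / (c * δ) ≤ l := by linarith
    rw [div_le_iff₀ hc] at h3
    rw [div_le_iff₀ (by positivity)] at h4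
    have h5 : 2 ≤ δ * hh v := by
      calc (2 : ℝ) ≤ l * (c * δ) := h4
        _ = δ * (c * l) := by ring
        _ ≤ δ * hh v := mul_le_mul_of_nonneg_left (h2.trans h1) hδ.le
    have h6 : Real.log 2 ≤ 1 := by
      have := Real.log_two_lt_d9
      linarith
    exact ⟨by linarith, by linarith⟩
  have hwk : ∀ (i : Fin 3) (k : ℕ) (e : Fin 3 → Fin k → ℕ) (q : Fin k → ℕ), ∀ v ∈ F,
      FaR K i e q v → ((K.card + k).factorial : ℝ) ≤ X ∧
        (K ∪ univ.image q).card = K.card + k ∧ (∀ p ∈ K ∪ univ.image q, p.Prime) ∧ k ≤ N := by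
    intro i k e q v hv hR
    have hsub : K ∪ univ.image q ⊆ (nn v).primeFactors := by
      refine union_subset (hF v hv).2.2.2.2.2.1 ?_
      intro p hp
      obtain ⟨j, -, rfl⟩ := mem_image.1 hp
      exact (hR.2.1 j).1
    have hcard : (K ∪ univ.image q).card = K.card + k := by
      rw [card_union_of_disjoint, card_image_of_injective _ hR.1, card_univ, Fintype.card_fin]
      rw [disjoint_right]
      intro p hp
      obtain ⟨j, -, rfl⟩ := mem_image.1 hp
      exact (hR.2.1 j).2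
    have hf := (hfac v hv _ hsub).2
    rw [hcard] at hf
    refine ⟨hf, hcard, fun p hp => (Nat.mem_primeFactors.1 (hsub hp)).1, ?_⟩
    have h1 := (hfac v hv (univ.image q) (subset_union_right.trans hsub)).1
    rw [Finset.prod_image fun a _ b _ h => hR.1 h] at h1
    have hq0 : ∀ j, (0 : ℝ) < q j := fun j => by
      exact_mod_cast (Nat.mem_primeFactors.1 (hR.2.1 j).1).1.pos
    have h2 : ∑ j, Real.log (q j) ≤ l := by
      rw [← Real.log_prod fun j _ => (hq0 j).ne']
      refine Real.log_le_log (Finset.prod_pos fun j _ => hq0 j) ?_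
      push_cast at h1
      exact h1
    have h3 : ∀ j ∈ (univ : Finset (Fin k)), l * η ≤ Real.log (q j) := by
      intro j _
      have h4 := (hF v hv).2.2.2.2.2.2.1 (q j) (hR.2.1 j).1 (hR.2.1 j).2
      have h5 := Real.log_le_log (Real.rpow_pos_of_pos hX0 η) h4.le
      rw [Real.log_rpow hX0] at h5
      linarith
    have h6 := Finset.card_nsmul_le_sum _ _ _ h3
    rw [card_univ, Fintype.card_fin, nsmul_eq_mul] at h6
    refine Nat.le_floor ?_
    rw [le_div_iff₀ hη]
    have h7 : (k : ℝ) * η * l ≤ 1 * l := by linarith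
    exact le_of_mul_le_mul_right h7 hl0
  -- level 6: fixed free primes
  set n6 : ℝ := X ^ (ε / 8) * H with hn6
  have hXp : 0 < X ^ (ε / 8) := Real.rpow_pos_of_pos hX0 _
  have hn60 : 0 < n6 := by positivity
  have h6 : ∀ (i : Fin 3) (k : ℕ) (e : Fin 3 → Fin k → ℕ) (q : Fin k → ℕ)
      (G : Finset (ℕ × ℕ)), G ⊆ F →
      (∀ v ∈ G, FaR K i e q v ∧ δ * hh v ≤ kl K (coord v i)) → (G.card : ℝ) ≤ n6 := by
    intro i k e q G hGF hGv
    rcases G.eq_empty_or_nonempty with rfl | ⟨v1, hv1⟩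
    · simpa using hn60.le
    obtain ⟨hw1, hw2, hw3, -⟩ := hwk i k e q v1 (hGF hv1) (hGv v1 hv1).1
    have h7 := hG H (K ∪ univ.image q) G hH hw3 (fun v hv => by
      have hv' := hF v (hGF hv)
      refine ⟨hv'.1, hv'.2.2.1, ?_⟩
      have h8 := fa_mass hv'.1 (K ∪ univ.image q) i δ (hGv v hv).1.2.2.2.2
        ((hGv v hv).2.trans (fa_kl_mono subset_union_left _))
      have h9 := (hhc v (hGF hv)).2
      linarith)
    rw [hw2] at h7
    refine h7.trans ?_
    have h8 : 1 + Real.log H ≤ H := by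
      have := Real.log_le_sub_one_of_pos (show 0 < H by linarith)
      linarith
    have h9 : 0 ≤ 1 + Real.log H := by
      have := Real.log_nonneg hH
      linarith
    exact mul_le_mul (hwC _ hw1) h8 h9 hXp.le
  -- level 5: fixed exponents
  set n5 : ℝ := X ^ (ε / 8) * n6 with hn5
  have hn50 : 0 < n5 := by positivity
  have h5 : ∀ (i : Fin 3) (p : ℕ), p ∈ K → ∀ (m k : ℕ) (e : Fin 3 → Fin k → ℕ)
      (G : Finset (ℕ × ℕ)), G ⊆ F →
      (∀ v ∈ G, (δ * hh v ≤ kl K (coord v i) ∧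
        δ * hh v / K.card ≤ ((coord v i).factorization p : ℝ) * Real.log p ∧
        (2 : ℝ) ^ m ≤ hh v ∧ hh v ≤ 2 * 2 ^ m) ∧ ∃ q, FaR K i e q v) → (G.card : ℝ) ≤ n5 := by
    intro i p hp m k e G hGF hGv
    rcases G.eq_empty_or_nonempty with rfl | ⟨v1, hv1⟩
    · simpa using hn50.le
    have hex : ∀ v, ∃ q : Fin k → ℕ, v ∈ G → FaR K i e q v := by
      intro v
      by_cases hv : v ∈ G
      · obtain ⟨q, hq⟩ := (hGv v hv).2
        exact ⟨q, fun _ => hq⟩
      · exact ⟨fun _ => 0, fun h => absurd h hv⟩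
    choose qf hqf using hex
    obtain ⟨hw1, hw2, hw3, hkN⟩ := hwk i k e _ v1 (hGF hv1) (hqf v1 hv1)
    have hK1 : (1 : ℝ) ≤ K.card := by
      exact_mod_cast Finset.card_pos.2 ⟨p, hp⟩
    have hKk : (0 : ℝ) < ((K.card + k : ℕ) : ℝ) := by
      push_cast
      linarith [Nat.cast_nonneg (α := ℝ) k]
    have hm0 : (1 : ℝ) ≤ 2 ^ m := one_le_pow₀ (by norm_num)
    have hmX : (2 : ℝ) ^ m ≤ X := (hGv v1 hv1).1.2.2.1.trans (hF v1 (hGF hv1)).2.2.2.1
    have hpX : (p : ℝ) ≤ X := hKX v1 (hGF hv1) p ((hF v1 (hGF hv1)).2.2.2.2.2.1 hp)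
    have hQ := hT k X (2 ^ m) (δ * 2 ^ m / K.card) (K.card + k) K i p e (G.image qf)
      (((hXk k hkN).trans (by linarith [Real.exp_pos (Real.exp T)])).trans hX) hm0 hmX
      (hwl _ hw1) le_rfl hKp hp hpX (hqf v1 hv1).2.2.1
      (by
        have h7 := fa_ana (c := c) (δ := δ) (A := A k) hc hδ (lt_of_lt_of_le one_pos (hA k))
          (l := l) (L := L) (h0 := 2 ^ m) (w := ((K.card + k : ℕ) : ℝ)) hL hl0 (by linarith)
          (by
            have h8 : A k * (16 + 104 / c) / δ ≤ AA * (16 + 104 / c) / δ := by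
              refine div_le_div_of_nonneg_right ?_ hδ.le
              exact mul_le_mul_of_nonneg_right (hAk k hkN) (by positivity)
            linarith) hKk (hwb _ hw1)
          (by
            have h8 := (hF v1 (hGF hv1)).2.2.2.2.1
            have h9 := (hGv v1 hv1).1.2.2.2
            linarith)
        refine h7.trans ?_
        refine div_le_div_of_nonneg_left (by positivity) (by linarith) ?_
        push_cast
        linarith [Nat.cast_nonneg (α := ℝ) k])
      (by
        intro q hq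
        obtain ⟨v, hv, rfl⟩ := mem_image.1 hq
        have hR := hqf v hv
        obtain ⟨⟨hb1, hb2, hb3, hb4⟩, -⟩ := hGv v hv
        refine ⟨hR.1, fun j => ⟨(Nat.mem_primeFactors.1 (hR.2.1 j).1).1,
          hKX v (hGF hv) _ (hR.2.1 j).1, (hR.2.1 j).2⟩, v, (hF v (hGF hv)).1, hb3, hb4, ?_,
          hR.2.2.2.1⟩
        refine le_trans ?_ hb2
        refine div_le_div_of_nonneg_right ?_ (by linarith)
        exact mul_le_mul_of_nonneg_left hb3 hδ.le)
    have h8 := fa_cover G (G.image qf) (fun q v => FaR K i e q v) n6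
      (fun v hv => ⟨qf v, mem_image_of_mem _ hv, hqf v hv⟩)
      (fun q _ G' hG' hG'v => h6 i k e q G' (hG'.trans hGF) fun v hv =>
        ⟨hG'v v hv, (hGv v (hG' hv)).1.1⟩)
    exact h8.trans (mul_le_mul_of_nonneg_right hQ hn60.le)
  -- level 4: fixed number of free primes
  set n4 : ℝ := (3 * H) ^ (3 * N) * n5 with hn4
  have hn40 : 0 < n4 := by positivity
  have h4 : ∀ (i : Fin 3) (p : ℕ), p ∈ K → ∀ (m k : ℕ) (G : Finset (ℕ × ℕ)), k ≤ N → G ⊆ F →
      (∀ v ∈ G, (δ * hh v ≤ kl K (coord v i) ∧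
        δ * hh v / K.card ≤ ((coord v i).factorization p : ℝ) * Real.log p ∧
        (2 : ℝ) ^ m ≤ hh v ∧ hh v ≤ 2 * 2 ^ m) ∧ ∃ (e : Fin 3 → Fin k → ℕ) (q : Fin k → ℕ),
          (∀ s j, e s j ≤ (coord v s).factorization (q j)) ∧ FaR K i e q v) →
      (G.card : ℝ) ≤ n4 := by
    intro i p hp m k G hkN hGF hGv
    have h7 := fa_cover G
      (Fintype.piFinset fun _ : Fin 3 => Fintype.piFinset fun _ : Fin k => range (⌊2 * H⌋₊ + 1))
      (fun e v => ∃ q : Fin k → ℕ, FaR K i e q v) n5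
      (fun v hv => by
        obtain ⟨-, e, q, he, hR⟩ := hGv v hv
        refine ⟨e, ?_, q, hR⟩
        rw [Fintype.mem_piFinset]
        intro s
        rw [Fintype.mem_piFinset]
        intro j
        rw [mem_range]
        have hv' := hF v (hGF hv)
        refine Nat.lt_succ_of_le (fa_exp_le (fa_coord_pos hv'.1 s) ?_
          (Nat.mem_primeFactors.1 (hR.2.1 j).1).1 (he s j))
        refine le_trans ?_ hv'.2.2.1
        unfold hh
        refine Real.log_le_log (by exact_mod_cast fa_coord_pos hv'.1 s) ?_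
        have : coord v s ≤ v.1 + v.2 := by
          fin_cases s
          · exact Nat.le_add_right _ _
          · exact Nat.le_add_left _ _
          · exact le_rfl
        exact_mod_cast this)
      (fun e _ G' hG' hG'v => h5 i p hp m k e G' (hG'.trans hGF) fun v hv =>
        ⟨(hGv v (hG' hv)).1, hG'v v hv⟩)
    refine h7.trans (mul_le_mul_of_nonneg_right ?_ hn50.le)
    rw [Fintype.card_piFinset_const, Fintype.card_piFinset_const, card_range]
    push_cast
    rw [← pow_mul]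
    have h8 : (⌊2 * H⌋₊ : ℝ) + 1 ≤ 3 * H := by
      have := Nat.floor_le (show 0 ≤ 2 * H by linarith)
      linarith
    calc ((⌊2 * H⌋₊ : ℝ) + 1) ^ (k * 3) ≤ (3 * H) ^ (k * 3) :=
          pow_le_pow_left₀ (by positivity) h8 _
      _ ≤ (3 * H) ^ (3 * N) := pow_le_pow_right₀ (by linarith) (by omega)
  -- level 3
  set n3 : ℝ := ((N : ℝ) + 1) * n4 with hn3
  have hn30 : 0 < n3 := by positivity
  have h3 : ∀ (i : Fin 3) (p : ℕ), p ∈ K → ∀ (m : ℕ) (G : Finset (ℕ × ℕ)), G ⊆ F →
      (∀ v ∈ G, (δ * hh v ≤ kl K (coord v i) ∧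
        δ * hh v / K.card ≤ ((coord v i).factorization p : ℝ) * Real.log p ∧
        (2 : ℝ) ^ m ≤ hh v ∧ hh v ≤ 2 * 2 ^ m)) → (G.card : ℝ) ≤ n3 := by
    intro i p hp m G hGF hGv
    have h7 := fa_cover G (range (N + 1))
      (fun k v => ∃ (e : Fin 3 → Fin k → ℕ) (q : Fin k → ℕ),
          (∀ s j, e s j ≤ (coord v s).factorization (q j)) ∧ FaR K i e q v) n4
      (fun v hv => by
        obtain ⟨k, e, q, he, hR⟩ := fa_free (hF v (hGF hv)).1 K i
        exact ⟨k, mem_range.2 (Nat.lt_succ_of_le (hwk i k e q v (hGF hv) hR).2.2.2), e, q, he, hR⟩)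
      (fun k hk G' hG' hG'v => h4 i p hp m k G' (Nat.lt_succ_iff.1 (mem_range.1 hk))
        (hG'.trans hGF) fun v hv => ⟨hGv v (hG' hv), hG'v v hv⟩)
    rw [card_range] at h7
    push_cast at h7
    exact h7
  -- level 2
  set n2 : ℝ := 2 * H * n3 with hn2
  have hn20 : 0 < n2 := by positivity
  have h2 : ∀ (i : Fin 3) (p : ℕ), p ∈ K → ∀ (G : Finset (ℕ × ℕ)), G ⊆ F →
      (∀ v ∈ G, δ * hh v ≤ kl K (coord v i) ∧
        δ * hh v / K.card ≤ ((coord v i).factorization p : ℝ) * Real.log p) →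
      (G.card : ℝ) ≤ n2 := by
    intro i p hp G hGF hGv
    have h7 := fa_cover G (range (⌊H⌋₊ + 1))
      (fun m v => (2 : ℝ) ^ m ≤ hh v ∧ hh v ≤ 2 * 2 ^ m) n3
      (fun v hv => by
        have hv1 := (hhc v (hGF hv)).1
        have hf1 : 1 ≤ ⌊hh v⌋₊ := Nat.le_floor (by simpa using hv1)
        refine ⟨Nat.log 2 ⌊hh v⌋₊, ?_, ?_, ?_⟩
        · rw [mem_range]
          refine Nat.lt_succ_of_le ((Nat.log_le_self _ _).trans ?_)
          exact Nat.floor_mono (hF v (hGF hv)).2.2.1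
        · have h8 := Nat.pow_log_le_self 2 (show ⌊hh v⌋₊ ≠ 0 by omega)
          have h9 : ((2 ^ Nat.log 2 ⌊hh v⌋₊ : ℕ) : ℝ) ≤ (⌊hh v⌋₊ : ℝ) := by exact_mod_cast h8
          have h10 := Nat.floor_le (show 0 ≤ hh v by linarith)
          push_cast at h9
          linarith
        · have h8 := Nat.lt_pow_succ_log_self (show 1 < 2 by norm_num) ⌊hh v⌋₊
          have h9 : ((⌊hh v⌋₊ + 1 : ℕ) : ℝ) ≤ ((2 ^ (Nat.log 2 ⌊hh v⌋₊).succ : ℕ) : ℝ) := by
            exact_mod_cast h8
          have h10 := Nat.lt_floor_add_one (hh v)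
          rw [pow_succ] at h9
          push_cast at h9
          linarith)
      (fun m _ G' hG' hG'v => h3 i p hp m G' (hG'.trans hGF) fun v hv =>
        ⟨(hGv v (hG' hv)).1, (hGv v (hG' hv)).2, (hG'v v hv).1, (hG'v v hv).2⟩)
    refine h7.trans (mul_le_mul_of_nonneg_right ?_ hn30.le)
    rw [card_range]
    push_cast
    have := Nat.floor_le (show 0 ≤ H by linarith)
    linarith
  -- level 1
  have h1 : (F.card : ℝ) ≤ ((univ : Finset (Fin 3)) ×ˢ K).card * n2 := by
    refine fa_cover F ((univ : Finset (Fin 3)) ×ˢ K) (fun x v => δ * hh v ≤ kl K (coord v x.1) ∧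
        δ * hh v / K.card ≤ ((coord v x.1).factorization x.2 : ℝ) * Real.log x.2) n2
      (fun v hv => ?_) (fun x hx G' hG' hG'v => h2 x.1 x.2 (mem_product.1 hx).2 G' hG' hG'v)
    obtain ⟨t, ht⟩ := (hF v hv).2.2.2.2.2.2.2
    have hv1 := (hhc v hv).1
    have hpos : 0 < kl K (coord v t) := lt_of_lt_of_le (by positivity) ht
    have hKne : K.Nonempty := by
      rw [nonempty_iff_ne_empty]
      rintro rfl
      simp [kl] at hpos
    have hKc : (0 : ℝ) < K.card := by exact_mod_cast hKne.card_pos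
    obtain ⟨p, hp, hp'⟩ := Finset.exists_le_of_sum_le (s := K)
      (f := fun _ => δ * hh v / K.card)
      (g := fun q => ((coord v t).factorization q : ℝ) * Real.log q) hKne
      (by
        rw [Finset.sum_const, nsmul_eq_mul, mul_div_cancel₀ _ hKc.ne']
        exact ht)
    exact ⟨(t, p), mem_product.2 ⟨mem_univ _, hp⟩, ht, hp'⟩
  rw [card_product, card_univ, Fintype.card_fin] at h1
  push_cast at h1
  have hKl : (K.card : ℝ) ≤ X ^ (ε / 8) :=
    (hwl _ (hfac v0 hv0 K (hF v0 hv0).2.2.2.2.2.1).2).trans hlX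
  have hc1X : c1 ≤ X ^ (ε / 8) := by linarith
  have hX1p : 1 ≤ X ^ (ε / 8) := Real.one_le_rpow hX1' (by positivity)
  have hH0 : 0 < H := by linarith
  have hHp : H ^ (3 * (N : ℝ) + 2) = H ^ (3 * N + 2) := by
    rw [← Real.rpow_natCast]
    push_cast
    rfl
  have hX8 : (X ^ (ε / 8)) ^ 8 = X ^ ε := by
    rw [← Real.rpow_natCast, ← Real.rpow_mul hX0.le]
    congr 1
    push_cast
    ring
  rw [hHp, ← hX8]
  set Y := X ^ (ε / 8) with hY
  calc (F.card : ℝ) ≤ 3 * K.card * n2 := h1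
    _ ≤ 3 * Y * n2 := by
        refine mul_le_mul_of_nonneg_right ?_ hn20.le
        linarith
    _ = c1 * Y ^ 3 * H ^ (3 * N + 2) := by
        rw [hn2, hn3, hn4, hn5, hn6, hc1, mul_pow]
        ring
    _ ≤ Y * Y ^ 3 * H ^ (3 * N + 2) := by
        refine mul_le_mul_of_nonneg_right ?_ (by positivity)
        exact mul_le_mul_of_nonneg_right hc1X (by positivity)
    _ = Y ^ 4 * H ^ (3 * N + 2) := by ring
    _ ≤ Y ^ 8 * H ^ (3 * N + 2) := by
        refine mul_le_mul_of_nonneg_right ?_ (by positivity)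
        exact pow_le_pow_right₀ hX1p (by norm_num)

end Pool.SHA
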